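import Mathlib
import Pool.Agent.H99.Bub0
import Pool.Agent.H99.Bub3

set_option autoImplicit false

open H99.Bub MeasureTheory Metric Filter Topology

theorem Pool.Agent.Results.MP_105042_an.Bubbles.result :
    ∃ p : ℝ, 2 < p ∧ p ≤ 3 ∧ ∃ (Q : E → E → Mt → E) (C : ℝ), 0 < C ∧
      Measurable (fun s : E × E × Mt => Q s.1 s.2.1 s.2.2) ∧ (∀ x y z, ‖Q x y z‖ ≤ C * ‖z‖ ^ 2) ∧
      ∃ (u : E → E) (G : E → Mt), W1p p u G ∧ Weak Q u G ∧
        (∀ x0 ∈ ball (0 : E) 1, Tendsto (Mq p G x0) (𝓝[>] 0) (𝓝 0)) ∧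
        ¬ ∃ v : E → E, ContinuousOn v (ball 0 (1 / 2)) ∧
          u =ᵐ[volume.restrict (ball 0 (1 / 2))] v := by
  refine ⟨5 / 2, by norm_num, by norm_num, Q, 48, by norm_num, ?_, fun x y z => ?_, u, G, w1p, weak,
    fun x0 _ => mor x0, fun ⟨v, c, e⟩ => disc c e⟩
  · exact ((measurable_snd.snd.norm.pow_const 2).div
      ((G_meas.comp measurable_fst).norm.pow_const 2)).smul (F_meas.comp measurable_fst)
  · obtain ⟨a, b⟩ := FG x
    rw [Q, norm_smul, Real.norm_of_nonneg (by positivity), div_mul_eq_mul_div,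
      div_le_iff₀ (by linarith)]
    nlinarith [mul_le_mul_of_nonneg_left b (sq_nonneg ‖z‖)]
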